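import Pool.Agent.Lib.MP_e47d8d_al.Morse
import Pool.Agent.Lib.MP_e47d8d_al.Cohom

/-- For every `N ≥ 2` the abelian group `H^{2N-3}(Out(F_N); ℤ Out(F_N))` is free. -/
theorem Pool.Agent.Results.MP_e47d8d_al.FreeDualizing.result (N : ℕ) (hN : 2 ≤ N) :
    Module.Free ℤ (groupCohomology (Rep.leftRegular ℤ (OutFn.Out (FreeGroup (Fin N))))
      (2 * N - 3)) := by
  have : Nonempty (Fin N) := ⟨⟨0, by omega⟩⟩
  have e : 2 * N - 3 = (2 * N - 4) + 1 := by omega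
  rw [e]
  exact OutFn.free_cohomology (V := OutFn.Vert (Fin N)) (r := OutFn.vle) OutFn.Vert.g
    OutFn.smul_g OutFn.vle_smul OutFn.acyc_all OutFn.finite_above
    (OutFn.finite_vert (Set.finite_singleton 1)) (OutFn.Xn (Fin N)) OutFn.Xn_zero
    (fun _ _ h => OutFn.Xn_anti h) OutFn.finite_compl_Xn
    (fun _ _ _ ⟨g, h1, h2⟩ h => ⟨g, h1, Set.Subset.trans h2 h⟩)
    (fun v => (OutFn.star_away v.g).imp fun _ h => h (OutFn.mem_St_self v)) _
    (fun _ _ h => OutFn.rel_Xn h (by simp; omega))
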